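import Mathlib

/-!
# Definitions of the hand-in `DegreeOneInjective`

All groups are given by generators and relations. For a subgroup `H` of `G` the matrices over `R[H]`
are the matrices over `R[G]` with all coefficients in `H`.

* `K1G R G`: the group `K_1(R[G])`;
* `ColimK R G`: the colimit of the `K_1(R[H])` over the finite subgroups `H` of `G`;
* `TensorK R G`: the tensor product of `Z_G(H)_ab` and `K_0(R[H])` over the finite subgroups;
* `asmK`, `asmS`, `clsG`: the maps of `ColimK R G`, `TensorK R G` and `G` to `K1G R G`.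
-/

set_option autoImplicit false

noncomputable section

namespace Pool.Agent.Lib.MPb6f35e.D1

open FreeAbelianGroup

universe u v

/-! ### groups given by generators and relations -/

/-- The abelian group with generators `α` and relations `r`. -/
def Grp {α : Type u} (r : FreeAbelianGroup α → Prop) : Type u :=
  FreeAbelianGroup α ⧸ AddSubgroup.closure {y | r y}

instance {α : Type u} (r : FreeAbelianGroup α → Prop) : AddCommGroup (Grp r) :=
  QuotientAddGroup.Quotient.addCommGroup (AddSubgroup.closure {y | r y})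

/-- The class of a generator. -/
def cls {α : Type u} (r : FreeAbelianGroup α → Prop) (a : α) : Grp r :=
  QuotientAddGroup.mk (of a)

lemma hom_aux {α : Type u} {β : Type v} {r : FreeAbelianGroup α → Prop}
    {s : FreeAbelianGroup β → Prop} {f : α → β}
    (h : ∀ x, r x → map f x ∈ AddSubgroup.closure {y | s y}) :
    AddSubgroup.closure {y | r y} ≤ (AddSubgroup.closure {y | s y}).comap (map f) := by
  rw [AddSubgroup.closure_le]
  exact h

/-- The homomorphism given by a map `f` of the generators which respects the relations. -/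
def hom {α : Type u} {β : Type v} {r : FreeAbelianGroup α → Prop}
    {s : FreeAbelianGroup β → Prop} (f : α → β)
    (h : ∀ x, r x → map f x ∈ AddSubgroup.closure {y | s y}) : Grp r →+ Grp s :=
  QuotientAddGroup.map _ _ (map f) (hom_aux h)

/-! ### `K_1` of a ring -/

/-- The block matrix `(a x; 0 b)`. -/
def block {A : Type u} [Ring A] {m n : ℕ} (a : Matrix (Fin m) (Fin m) A)
    (x : Matrix (Fin m) (Fin n) A) (b : Matrix (Fin n) (Fin n) A) :
    Matrix (Fin (m + n)) (Fin (m + n)) A :=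
  (Matrix.fromBlocks a x 0 b).submatrix finSumFinEquiv.symm finSumFinEquiv.symm

/-- Generators of `K_1(A)`: the invertible matrices over `A`. -/
abbrev GenA (A : Type u) [Ring A] : Type u := Σ n : ℕ, (Matrix (Fin n) (Fin n) A)ˣ

/-- Relations of `K_1(A)`: `[a b] = [a] + [b]` and `[c] = [a] + [b]` for `c = (a x; 0 b)`. -/
inductive RelA (A : Type u) [Ring A] : FreeAbelianGroup (GenA A) → Prop
  | mul (n : ℕ) (a b : (Matrix (Fin n) (Fin n) A)ˣ) :
      RelA A (of ⟨n, a * b⟩ - of ⟨n, a⟩ - of ⟨n, b⟩)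
  | block (m n : ℕ) (a : (Matrix (Fin m) (Fin m) A)ˣ) (b : (Matrix (Fin n) (Fin n) A)ˣ)
      (x : Matrix (Fin m) (Fin n) A) (c : (Matrix (Fin (m + n)) (Fin (m + n)) A)ˣ)
      (h : c.val = D1.block a.val x b.val) :
      RelA A (of ⟨m + n, c⟩ - of ⟨m, a⟩ - of ⟨n, b⟩)

/-! ### the two summands of the source -/

section

variable {R : Type u} [CommRing R] {G : Type v} [Group G]

/-- The matrix `M` over `R[G]` is a matrix over `R[H]`. -/
def Over (H : Subgroup G) {m n : ℕ} (M : Matrix (Fin m) (Fin n) (MonoidAlgebra R G)) : Prop :=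
  ∀ i j g, (M i j).coeff g ≠ 0 → g ∈ H

/-- `g a = b g`, that is, `b = g a g⁻¹`, for matrices `a`, `b` over `R[G]` and `g` in `G`. -/
def Conj (g : G) {n : ℕ} (a b : Matrix (Fin n) (Fin n) (MonoidAlgebra R G)) : Prop :=
  ∀ i j, MonoidAlgebra.single g 1 * a i j = b i j * MonoidAlgebra.single g 1

variable (R G)

/-- Generators of the colimit of the `K_1(R[H])` over the finite subgroups `H` of `G`: `(H, a)`, `a`
an invertible matrix over `R[H]`. -/
structure GenK where
  /-- the finite subgroup -/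
  H : Subgroup G
  fin : Finite H
  /-- the size of the matrix -/
  n : ℕ
  /-- the invertible matrix -/
  a : (Matrix (Fin n) (Fin n) (MonoidAlgebra R G))ˣ
  ov : Over H a.val
  ov' : Over H a.inv

/-- Relations of the colimit: those of the `K_1(R[H])`, and `(K, g a g⁻¹) = (H, a)` if
`g H g⁻¹ ≤ K`. -/
inductive RelK : FreeAbelianGroup (GenK R G) → Prop
  | mul (H : Subgroup G) (hH : Finite H) (n : ℕ)
      (a b : (Matrix (Fin n) (Fin n) (MonoidAlgebra R G))ˣ)
      (ha : Over H a.val) (ha' : Over H a.inv) (hb : Over H b.val) (hb' : Over H b.inv)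
      (hc : Over H (a * b).val) (hc' : Over H (a * b).inv) :
      RelK (of ⟨H, hH, n, a * b, hc, hc'⟩ - of ⟨H, hH, n, a, ha, ha'⟩ - of ⟨H, hH, n, b, hb, hb'⟩)
  | block (H : Subgroup G) (hH : Finite H) (m n : ℕ)
      (a : (Matrix (Fin m) (Fin m) (MonoidAlgebra R G))ˣ)
      (b : (Matrix (Fin n) (Fin n) (MonoidAlgebra R G))ˣ)
      (x : Matrix (Fin m) (Fin n) (MonoidAlgebra R G))
      (c : (Matrix (Fin (m + n)) (Fin (m + n)) (MonoidAlgebra R G))ˣ)
      (ha : Over H a.val) (ha' : Over H a.inv) (hb : Over H b.val) (hb' : Over H b.inv)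
      (hc : Over H c.val) (hc' : Over H c.inv) (h : c.val = D1.block a.val x b.val) :
      RelK (of ⟨H, hH, m + n, c, hc, hc'⟩ - of ⟨H, hH, m, a, ha, ha'⟩
        - of ⟨H, hH, n, b, hb, hb'⟩)
  | conj (H K : Subgroup G) (hH : Finite H) (hK : Finite K) (g : G)
      (hg : ∀ h ∈ H, g * h * g⁻¹ ∈ K) (n : ℕ)
      (a b : (Matrix (Fin n) (Fin n) (MonoidAlgebra R G))ˣ)
      (ha : Over H a.val) (ha' : Over H a.inv) (hb : Over K b.val) (hb' : Over K b.inv)
      (h : Conj g a.val b.val) :
      RelK (of ⟨K, hK, n, b, hb, hb'⟩ - of ⟨H, hH, n, a, ha, ha'⟩)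

/-- Generators of the tensor product of `Z_G(H)_ab` and `K_0(R[H])` over the finite subgroups `H` of
`G`: `(H, z, e)`, `z` an element of the centralizer of `H` and `e` an idempotent matrix over
`R[H]`. -/
structure GenS where
  /-- the finite subgroup -/
  H : Subgroup G
  fin : Finite H
  /-- the element of the centralizer -/
  z : G
  comm : ∀ h ∈ H, z * h = h * z
  /-- the size of the matrix -/
  n : ℕ
  /-- the idempotent matrix -/
  e : Matrix (Fin n) (Fin n) (MonoidAlgebra R G)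
  ov : Over H e
  idem : e * e = e

/-- Relations of the tensor product: `(H, z z', e) = (H, z, e) + (H, z', e)`;
`(H, z, a b) = (H, z, b a)`; `(H, z, d) = (H, z, e) + (H, z, f)` for `d = (e 0; 0 f)`;
`(K, z, g e g⁻¹) = (H, g⁻¹ z g, e)` if `g H g⁻¹ ≤ K` and `z` centralizes `K`. -/
inductive RelS : FreeAbelianGroup (GenS R G) → Prop
  | mul (H : Subgroup G) (hH : Finite H) (z z' : G) (hz : ∀ h ∈ H, z * h = h * z)
      (hz' : ∀ h ∈ H, z' * h = h * z') (hzz : ∀ h ∈ H, z * z' * h = h * (z * z')) (n : ℕ)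
      (e : Matrix (Fin n) (Fin n) (MonoidAlgebra R G)) (he : Over H e) (hee : e * e = e) :
      RelS (of ⟨H, hH, z * z', hzz, n, e, he, hee⟩ - of ⟨H, hH, z, hz, n, e, he, hee⟩
        - of ⟨H, hH, z', hz', n, e, he, hee⟩)
  | equiv (H : Subgroup G) (hH : Finite H) (z : G) (hz : ∀ h ∈ H, z * h = h * z) (m n : ℕ)
      (a : Matrix (Fin m) (Fin n) (MonoidAlgebra R G))
      (b : Matrix (Fin n) (Fin m) (MonoidAlgebra R G)) (ha : Over H a) (hb : Over H b)
      (hab : Over H (a * b)) (hba : Over H (b * a)) (h : a * b * (a * b) = a * b)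
      (h' : b * a * (b * a) = b * a) :
      RelS (of ⟨H, hH, z, hz, m, a * b, hab, h⟩ - of ⟨H, hH, z, hz, n, b * a, hba, h'⟩)
  | block (H : Subgroup G) (hH : Finite H) (z : G) (hz : ∀ h ∈ H, z * h = h * z) (m n : ℕ)
      (e : Matrix (Fin m) (Fin m) (MonoidAlgebra R G))
      (f : Matrix (Fin n) (Fin n) (MonoidAlgebra R G)) (he : Over H e) (hf : Over H f)
      (hee : e * e = e) (hff : f * f = f)
      (d : Matrix (Fin (m + n)) (Fin (m + n)) (MonoidAlgebra R G)) (hd : Over H d)
      (hdd : d * d = d) (h : d = D1.block e 0 f) :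
      RelS (of ⟨H, hH, z, hz, m + n, d, hd, hdd⟩ - of ⟨H, hH, z, hz, m, e, he, hee⟩
        - of ⟨H, hH, z, hz, n, f, hf, hff⟩)
  | conj (H K : Subgroup G) (hH : Finite H) (hK : Finite K) (g : G)
      (hg : ∀ h ∈ H, g * h * g⁻¹ ∈ K) (z : G) (hz : ∀ h ∈ K, z * h = h * z)
      (hz' : ∀ h ∈ H, g⁻¹ * z * g * h = h * (g⁻¹ * z * g)) (n : ℕ)
      (e f : Matrix (Fin n) (Fin n) (MonoidAlgebra R G)) (he : Over H e) (hf : Over K f)
      (hee : e * e = e) (hff : f * f = f) (h : Conj g e f) :
      RelS (of ⟨K, hK, z, hz, n, f, hf, hff⟩ - of ⟨H, hH, g⁻¹ * z * g, hz', n, e, he, hee⟩)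

/-- The group `K_1(R[G])`. -/
abbrev K1G : Type (max u v) := Grp (RelA (MonoidAlgebra R G))

/-- The colimit of the `K_1(R[H])` over the finite subgroups `H` of `G`. -/
abbrev ColimK : Type (max u v) := Grp (RelK R G)

/-- The tensor product of `Z_G(H)_ab` and `K_0(R[H])` over the finite subgroups `H` of `G`. -/
abbrev TensorK : Type (max u v) := Grp (RelS R G)

/-! ### the maps on the generators -/

variable {R G}

/-- The matrix `1 - e + z e`. -/
def zmat (z : G) {n : ℕ} (e : Matrix (Fin n) (Fin n) (MonoidAlgebra R G)) :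
    Matrix (Fin n) (Fin n) (MonoidAlgebra R G) :=
  1 - e + (MonoidAlgebra.single z 1 : MonoidAlgebra R G) • e

lemma single_comm {H : Subgroup G} {z : G} (hz : ∀ h ∈ H, z * h = h * z)
    (x : MonoidAlgebra R G) (hx : ∀ g, x.coeff g ≠ 0 → g ∈ H) :
    MonoidAlgebra.single z 1 * x = x * MonoidAlgebra.single z 1 := by
  ext g
  rw [MonoidAlgebra.coeff_single_mul_apply, MonoidAlgebra.coeff_mul_single_apply, one_mul, mul_one]
  by_cases h1 : x.coeff (z⁻¹ * g) = 0
  · by_cases h2 : x.coeff (g * z⁻¹) = 0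
    · rw [h1, h2]
    · have h3 := hz _ (hx _ h2)
      have h4 : z⁻¹ * g = g * z⁻¹ := by
        rw [inv_mul_eq_iff_eq_mul, h3, inv_mul_cancel_right]
      rw [h4]
  · have h3 := hz _ (hx _ h1)
    have h4 : z⁻¹ * g = g * z⁻¹ := by
      rw [eq_mul_inv_iff_mul_eq, ← h3, mul_inv_cancel_left]
    rw [h4]

lemma zmat_mul (z z' : G) {n : ℕ} (e : Matrix (Fin n) (Fin n) (MonoidAlgebra R G))
    (he : e * e = e)
    (hz' : ∀ i j, MonoidAlgebra.single z' 1 * e i j = e i j * MonoidAlgebra.single z' 1) :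
    zmat z e * zmat z' e = zmat (z * z') e := by
  have h1 : e * (MonoidAlgebra.single z' 1 : MonoidAlgebra R G) • e =
      (MonoidAlgebra.single z' 1 : MonoidAlgebra R G) • e := by
    ext1 i j
    have h2 := congrFun (congrFun he i) j
    simp only [Matrix.mul_apply, Matrix.smul_apply, smul_eq_mul] at h2 ⊢
    rw [← h2, Finset.mul_sum]
    refine Finset.sum_congr rfl fun k _ => ?_
    rw [← mul_assoc, ← hz', mul_assoc]
  have h3 : (MonoidAlgebra.single (z * z') 1 : MonoidAlgebra R G) =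
      MonoidAlgebra.single z 1 * MonoidAlgebra.single z' 1 := by
    rw [MonoidAlgebra.single_mul_single, one_mul]
  unfold zmat
  rw [add_mul, mul_add, mul_add, sub_mul, sub_mul, one_mul, one_mul, mul_sub, mul_one, he, h1,
    Matrix.smul_mul, Matrix.smul_mul, h1, mul_sub, mul_one, he, sub_self, sub_self, smul_zero,
    smul_smul, ← h3]
  abel

lemma zmat_one {n : ℕ} (e : Matrix (Fin n) (Fin n) (MonoidAlgebra R G)) : zmat 1 e = 1 := by
  unfold zmat
  rw [← MonoidAlgebra.one_def, one_smul, sub_add_cancel]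

lemma zmat_inv (x : GenS R G) : zmat x.z x.e * zmat x.z⁻¹ x.e = 1 := by
  rw [zmat_mul _ _ _ x.idem, mul_inv_cancel, zmat_one]
  intro i j
  exact single_comm (H := x.H) (fun h hh => by
    rw [inv_mul_eq_iff_eq_mul, ← mul_assoc, x.comm h hh, mul_inv_cancel_right]) _ (x.ov i j)

lemma zmat_inv' (x : GenS R G) : zmat x.z⁻¹ x.e * zmat x.z x.e = 1 := by
  rw [zmat_mul _ _ _ x.idem, inv_mul_cancel, zmat_one]
  intro i j
  exact single_comm (H := x.H) x.comm _ (x.ov i j)

variable (R) in
/-- The `1 × 1` matrix with entry `g`. -/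
def gmat (g : G) : Matrix (Fin 1) (Fin 1) (MonoidAlgebra R G) :=
  Matrix.of fun _ _ => MonoidAlgebra.single g 1

lemma gmat_mul (g g' : G) (h : g * g' = 1) : gmat R g * gmat R g' = 1 := by
  ext1 i j
  fin_cases i
  fin_cases j
  simp [gmat, Matrix.mul_apply, MonoidAlgebra.single_mul_single, h, MonoidAlgebra.one_def]

/-- `(H, a) ↦ [a]`. -/
def mapK (x : GenK R G) : GenA (MonoidAlgebra R G) := ⟨x.n, x.a⟩

/-- `(H, z, e) ↦ [1 - e + z e]`, with inverse matrix `1 - e + z⁻¹ e`. -/
def mapS (x : GenS R G) : GenA (MonoidAlgebra R G) :=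
  ⟨x.n, zmat x.z x.e, zmat x.z⁻¹ x.e, zmat_inv x, zmat_inv' x⟩

variable (R) in
/-- The `1 × 1` matrix with entry `g`. -/
def mapG (g : G) : GenA (MonoidAlgebra R G) :=
  ⟨1, gmat R g, gmat R g⁻¹, gmat_mul _ _ (mul_inv_cancel g), gmat_mul _ _ (inv_mul_cancel g)⟩

end

end Pool.Agent.Lib.MPb6f35e.D1
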