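import Pool.Agent.Lib.MP_b6f35e_al.D1.Maps
import Pool.Agent.Lib.MP_b6f35e_al.WH.DegP

/-!
# Degree one, in the form of the hand-in `DegreeOneInjective`
-/

set_option autoImplicit false

noncomputable section

namespace Pool.Agent.Lib.MPb6f35e.D1

open Pool.Agent.Lib.MPb6f35e.WH Pool.Agent.Lib.MPb6f35e.W2

universe u v

variable {R : Type u} [CommRing R] {G : Type v} [Group G]

lemma kOld_asmK (x : ColimK R G) : kOld (MonoidAlgebra R G) (asmK R G x) =
    assembly R G (psiK x) := by
  have h : (kOld (MonoidAlgebra R G)).comp (asmK R G) = (assembly R G).comp psiK := by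
    apply grp_ext
    intro s
    rw [AddMonoidHom.comp_apply, AddMonoidHom.comp_apply, asmK, hom_cls, kOld_cls, psiK, lift_cls,
      assembly_oldK]
    rfl
  exact DFunLike.congr_fun h x

lemma kOld_asmS (y : TensorK R G) : kOld (MonoidAlgebra R G) (asmS R G y) =
    asm2 R G (psiS y) := by
  have h : (kOld (MonoidAlgebra R G)).comp (asmS R G) = (asm2 R G).comp psiS := by
    apply grp_ext
    intro s
    rw [AddMonoidHom.comp_apply, AddMonoidHom.comp_apply, asmS, hom_cls, kOld_cls, psiS, lift_cls,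
      asm2_cls, mapS_snd]
    rfl
  exact DFunLike.congr_fun h y

lemma kOld_clsG (g : G) : kOld (MonoidAlgebra R G) (clsG R g) = K1.unit (gUnit R g) := by
  rw [clsG, kOld_cls, mapG_snd]
  rfl

lemma fin_of_psiK {x : ColimK R G} (h : IsOfFinAddOrder (psiK x)) : IsOfFinAddOrder x := by
  have := phiK.isOfFinAddOrder h
  rwa [phiK_psiK] at this

lemma fin_of_psiS {y : TensorK R G} (h : IsOfFinAddOrder (psiS y)) : IsOfFinAddOrder y := by
  have := phiS.isOfFinAddOrder h
  rwa [phiS_psiS] at this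

/-- The theorem. -/
theorem main (R : Type u) [CommRing R] [IsDomain R]
    (hR : ∀ a : R, a ≠ 0 → Finite (R ⧸ Ideal.span {a})) (G : Type v) [Group G] :
    (∀ (g : G) (x : ColimK R G), IsOfFinAddOrder (clsG R g + asmK R G x) →
      IsOfFinOrder (Abelianization.of g) ∧ IsOfFinAddOrder x) ∧
    (IsField R → CharZero R → ∀ (x : ColimK R G) (y : TensorK R G),
      IsOfFinAddOrder (asmK R G x + asmS R G y) → IsOfFinAddOrder x ∧ IsOfFinAddOrder y) := by
  obtain ⟨-, h1, h2⟩ := degree_one_all R hR G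
  refine ⟨fun g x h => ?_, fun hf h0 x y h => ?_⟩
  · have h3 := (kOld (MonoidAlgebra R G)).isOfFinAddOrder h
    rw [map_add, kOld_asmK, kOld_clsG] at h3
    obtain ⟨h4, h5⟩ := h1 g _ h3
    exact ⟨h4, fin_of_psiK h5⟩
  · have h3 := (kOld (MonoidAlgebra R G)).isOfFinAddOrder h
    rw [map_add, kOld_asmK, kOld_asmS] at h3
    obtain ⟨h4, h5⟩ := h2 hf h0 _ _ h3
    exact ⟨fin_of_psiK h4, fin_of_psiS h5⟩

end Pool.Agent.Lib.MPb6f35e.D1
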