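import Pool.Agent.Lib.MP_b6f35e_al.D1.TS

/-!
# The maps of the hand-in `DegreeOneInjective`
-/

set_option autoImplicit false

noncomputable section

namespace Pool.Agent.Lib.MPb6f35e.D1

universe u v

variable {R : Type u} [CommRing R] {G : Type v} [Group G]

/-- `mapK` respects the relations. -/
lemma mapK_rel (x : FreeAbelianGroup (GenK R G)) (h : RelK R G x) :
    FreeAbelianGroup.map mapK x ∈ AddSubgroup.closure {y | RelA (MonoidAlgebra R G) y} :=
  mapK_rel_aux x h

/-- `mapS` respects the relations. -/
lemma mapS_rel (x : FreeAbelianGroup (GenS R G)) (h : RelS R G x) :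
    FreeAbelianGroup.map mapS x ∈ AddSubgroup.closure {y | RelA (MonoidAlgebra R G) y} :=
  mapS_rel_aux x h

variable (R G)

/-- The map of the colimit of the `K_1(R[H])` to `K_1(R[G])`: `(H, a) ↦ [a]`. -/
def asmK : ColimK R G →+ K1G R G := hom mapK mapK_rel

/-- The map of the tensor product to `K_1(R[G])`: `(H, z, e) ↦ [1 - e + z e]`. -/
def asmS : TensorK R G →+ K1G R G := hom mapS mapS_rel

variable {G}

/-- The class of `g` in `K_1(R[G])`. -/
def clsG (g : G) : K1G R G := cls _ (mapG R g)

end Pool.Agent.Lib.MPb6f35e.D1
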