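import Pool.Agent.Lib.MP_b6f35e_al.D1.Defs
import Pool.Agent.Lib.MP_b6f35e_al.W2.Asm

/-!
# Matrices over `R[G]` with coefficients in `H`, as matrices over `R[H]`
-/

set_option autoImplicit false

noncomputable section

namespace Pool.Agent.Lib.MPb6f35e.D1

open Pool.Agent.Lib.MPb6f35e.WH Pool.Agent.Lib.MPb6f35e.W2

universe u v w

/-! ### groups given by generators and relations -/

section

variable {α : Type u} {r : FreeAbelianGroup α → Prop} {B : Type v} [AddCommGroup B]

/-- Universal property. -/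
def lift (f : α → B) (h : ∀ x, r x → FreeAbelianGroup.lift f x = 0) : Grp r →+ B :=
  QuotientAddGroup.lift (AddSubgroup.closure {x | r x}) (FreeAbelianGroup.lift f)
    (by
      intro x hx
      have : AddSubgroup.closure {x | r x} ≤ (FreeAbelianGroup.lift f).ker := by
        rw [AddSubgroup.closure_le]
        intro y hy
        exact h y hy
      exact this hx)

@[simp] lemma lift_cls (f : α → B) (h : ∀ x, r x → FreeAbelianGroup.lift f x = 0) (a : α) :
    lift f h (cls r a) = f a := by
  show FreeAbelianGroup.lift _ (FreeAbelianGroup.of _) = _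
  simp

lemma grp_ext {f g : Grp r →+ B} (h : ∀ a, f (cls r a) = g (cls r a)) : f = g := by
  apply QuotientAddGroup.addMonoidHom_ext
  ext x
  exact h x

lemma grp_rel {x : FreeAbelianGroup α} (h : r x) : (QuotientAddGroup.mk x : Grp r) = 0 :=
  (QuotientAddGroup.eq_zero_iff _).2 (AddSubgroup.subset_closure h)

/-- The projection. -/
def proj (r : FreeAbelianGroup α → Prop) : FreeAbelianGroup α →+ Grp r :=
  QuotientAddGroup.mk' (AddSubgroup.closure {y | r y})

@[simp] lemma proj_of (a : α) : proj r (FreeAbelianGroup.of a) = cls r a := rfl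

lemma proj_surj (x : Grp r) : ∃ y, proj r y = x := QuotientAddGroup.mk_surjective x

lemma proj_mem {x : FreeAbelianGroup α} :
    x ∈ AddSubgroup.closure {y | r y} ↔ proj r x = 0 :=
  (QuotientAddGroup.eq_zero_iff _).symm

@[simp] lemma hom_cls {β : Type w} {s : FreeAbelianGroup β → Prop} (f : α → β)
    (h : ∀ x, r x → FreeAbelianGroup.map f x ∈ AddSubgroup.closure {y | s y}) (a : α) :
    hom (r := r) f h (cls r a) = cls s (f a) := by
  show (QuotientAddGroup.mk (FreeAbelianGroup.map f (FreeAbelianGroup.of a)) : Grp s) = _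
  rw [FreeAbelianGroup.map_of_apply]
  rfl

end

/-! ### restriction -/

section

/-- Matrices over the group ring `R[G]`. -/
abbrev Mat (R : Type u) [CommRing R] (G : Type v) [Group G] (m n : ℕ) : Type (max u v) :=
  Matrix (Fin m) (Fin n) (MonoidAlgebra R G)

variable {R : Type u} [CommRing R] {G : Type v} [Group G]

lemma toG_apply (H : FinSub G) (x : MonoidAlgebra R H.1) :
    toG H x = MonoidAlgebra.mapDomain (Subtype.val : H.1 → G) x := rfl

lemma toG_inj (H : FinSub G) : Function.Injective (toG (F := R) H) :=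
  MonoidAlgebra.mapDomain_injective Subtype.val_injective

lemma map_inj (H : FinSub G) {m n : ℕ} {M N : Matrix (Fin m) (Fin n) (MonoidAlgebra R H.1)}
    (h : M.map (toG H) = N.map (toG H)) : M = N := by
  ext1 i j
  exact toG_inj H (congrFun (congrFun h i) j)

lemma over_map (H : FinSub G) {m n : ℕ} (M : Matrix (Fin m) (Fin n) (MonoidAlgebra R H.1)) :
    Over H.1 (M.map (toG H)) := by
  intro i j g hg
  by_contra h
  apply hg
  rw [Matrix.map_apply, toG_apply, MonoidAlgebra.coeff_mapDomain]
  exact Finsupp.mapDomain_of_notMem_range _ _ (by simpa using h)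

/-- A matrix over `R[G]` with all coefficients in `H`, as a matrix over `R[H]`. -/
def rst (H : FinSub G) {m n : ℕ} (M : Mat R G m n) :
    Matrix (Fin m) (Fin n) (MonoidAlgebra R H.1) :=
  M.map (MonoidAlgebra.comapDomain (Subtype.val : H.1 → G) Subtype.val_injective)

lemma rst_map (H : FinSub G) {m n : ℕ} {M : Mat R G m n} (h : Over H.1 M) :
    (rst H M).map (toG H) = M := by
  ext1 i j
  show toG H (MonoidAlgebra.comapDomain (Subtype.val : H.1 → G) Subtype.val_injective (M i j)) = _
  rw [toG_apply, MonoidAlgebra.mapDomain_comapDomain]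
  intro g hg
  have := h i j g (by simpa using hg)
  simpa using this

lemma rst_of_map (H : FinSub G) {m n : ℕ} (M : Matrix (Fin m) (Fin n) (MonoidAlgebra R H.1)) :
    rst H (M.map (toG H)) = M :=
  map_inj H (rst_map H (over_map H M))

lemma rst_eq (H : FinSub G) {m n : ℕ} {M : Mat R G m n}
    {N : Matrix (Fin m) (Fin n) (MonoidAlgebra R H.1)} (h : M = N.map (toG H)) :
    rst H M = N := by
  rw [h, rst_of_map]

lemma map_one' (H : FinSub G) (n : ℕ) :
    (1 : Matrix (Fin n) (Fin n) (MonoidAlgebra R H.1)).map (toG H) = 1 :=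
  Matrix.map_one _ (map_zero _) (map_one _)

/-- An invertible matrix over `R[H]`. -/
def rstU (H : FinSub G) {n : ℕ} (a : (Mat R G n n)ˣ) (h : Over H.1 a.val) (h' : Over H.1 a.inv) :
    (Matrix (Fin n) (Fin n) (MonoidAlgebra R H.1))ˣ where
  val := rst H a.val
  inv := rst H a.inv
  val_inv := by
    apply map_inj H
    rw [Matrix.map_mul, rst_map H h, rst_map H h', a.val_inv, map_one']
  inv_val := by
    apply map_inj H
    rw [Matrix.map_mul, rst_map H h, rst_map H h', a.inv_val, map_one']

/-- `GL_n(R[H]) → GL_n(R[G])`. -/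
def mapU (H : FinSub G) {n : ℕ} (u : (Matrix (Fin n) (Fin n) (MonoidAlgebra R H.1))ˣ) :
    (Mat R G n n)ˣ :=
  Units.map ((toG (F := R) H).mapMatrix).toMonoidHom u

lemma mapU_val (H : FinSub G) {n : ℕ} (u : (Matrix (Fin n) (Fin n) (MonoidAlgebra R H.1))ˣ) :
    (mapU H u).val = u.val.map (toG H) := rfl

lemma mapU_inv (H : FinSub G) {n : ℕ} (u : (Matrix (Fin n) (Fin n) (MonoidAlgebra R H.1))ˣ) :
    (mapU H u).inv = u.inv.map (toG H) := rfl

lemma over_mapU (H : FinSub G) {n : ℕ} (u : (Matrix (Fin n) (Fin n) (MonoidAlgebra R H.1))ˣ) :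
    Over H.1 (mapU H u).val := over_map H _

lemma over_mapU' (H : FinSub G) {n : ℕ} (u : (Matrix (Fin n) (Fin n) (MonoidAlgebra R H.1))ˣ) :
    Over H.1 (mapU H u).inv := over_map H _

lemma mapU_mul (H : FinSub G) {n : ℕ} (u v : (Matrix (Fin n) (Fin n) (MonoidAlgebra R H.1))ˣ) :
    mapU H (u * v) = mapU H u * mapU H v := _root_.map_mul _ _ _

lemma mapU_rstU (H : FinSub G) {n : ℕ} (a : (Mat R G n n)ˣ) (h : Over H.1 a.val)
    (h' : Over H.1 a.inv) : mapU H (rstU H a h h') = a :=
  Units.ext (rst_map H h)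

lemma mapU_inj (H : FinSub G) {n : ℕ} {u v : (Matrix (Fin n) (Fin n) (MonoidAlgebra R H.1))ˣ}
    (h : mapU H u = mapU H v) : u = v :=
  Units.ext (map_inj H (congrArg Units.val h))

lemma rstU_mapU (H : FinSub G) {n : ℕ} (u : (Matrix (Fin n) (Fin n) (MonoidAlgebra R H.1))ˣ)
    (h : Over H.1 (mapU H u).val) (h' : Over H.1 (mapU H u).inv) : rstU H (mapU H u) h h' = u :=
  mapU_inj H (mapU_rstU H _ h h')

lemma block_map {A : Type u} {B : Type v} [Ring A] [Ring B] (f : A →+* B) {m n : ℕ}
    (a : Matrix (Fin m) (Fin m) A) (x : Matrix (Fin m) (Fin n) A) (b : Matrix (Fin n) (Fin n) A) :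
    (block a x b).map f = block (a.map f) (x.map f) (b.map f) := by
  ext1 i j
  simp only [block, Matrix.map_apply, Matrix.submatrix_apply]
  rcases finSumFinEquiv.symm i with i | i <;> rcases finSumFinEquiv.symm j with j | j <;>
    simp [Matrix.fromBlocks]

lemma block_inj {A : Type u} [Ring A] {m n : ℕ} {a a' : Matrix (Fin m) (Fin m) A}
    {x x' : Matrix (Fin m) (Fin n) A} {b b' : Matrix (Fin n) (Fin n) A}
    (h : block a x b = block a' x' b') : a = a' ∧ x = x' ∧ b = b' := by
  have h1 : ∀ i j, Matrix.fromBlocks a x 0 b i j = Matrix.fromBlocks a' x' 0 b' i j := by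
    intro i j
    have h2 := congrFun (congrFun h (finSumFinEquiv i)) (finSumFinEquiv j)
    simpa only [block, Matrix.submatrix_apply, Equiv.symm_apply_apply] using h2
  refine ⟨?_, ?_, ?_⟩
  · ext1 i j
    exact h1 (Sum.inl i) (Sum.inl j)
  · ext1 i j
    exact h1 (Sum.inl i) (Sum.inr j)
  · ext1 i j
    exact h1 (Sum.inr i) (Sum.inr j)

lemma over_block (H : Subgroup G) {m n : ℕ} {a : Mat R G m m} {x : Mat R G m n} {b : Mat R G n n}
    (h : Over H (block a x b)) : Over H x := by
  intro i j
  have := h (finSumFinEquiv (Sum.inl i)) (finSumFinEquiv (Sum.inr j))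
  simpa only [block, Matrix.submatrix_apply, Equiv.symm_apply_apply, Matrix.fromBlocks_apply₁₂]
    using this

/-- The conjugate matrix. -/
lemma conj_map (H K : FinSub G) (g : G) (hg : ∀ x ∈ H.1, g * x * g⁻¹ ∈ K.1) {n : ℕ}
    (M : Matrix (Fin n) (Fin n) (MonoidAlgebra R H.1)) :
    Conj g (M.map (toG H))
      ((M.map (MonoidAlgebra.mapDomainRingHom R (conjHom g H.1 K.1 hg))).map (toG K)) := by
  intro i j
  simp only [Matrix.map_apply]
  generalize M i j = y
  induction y using MonoidAlgebra.induction_linear with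
  | zero => simp
  | add x y hx hy => simp only [map_add, mul_add, add_mul, hx, hy]
  | single x r =>
    simp [toG, conjHom, MonoidAlgebra.mapDomain_single, MonoidAlgebra.single_mul_single]

lemma conj_unique {g : G} {n : ℕ} {a b b' : Mat R G n n} (h : Conj g a b) (h' : Conj g a b') :
    b = b' := by
  ext1 i j
  have h1 : b i j * MonoidAlgebra.single g 1 = b' i j * MonoidAlgebra.single g 1 := by
    rw [← h i j, ← h' i j]
  have h2 := congrArg (· * (MonoidAlgebra.single g⁻¹ 1 : MonoidAlgebra R G)) h1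
  simpa [mul_assoc, MonoidAlgebra.single_mul_single, ← MonoidAlgebra.one_def] using h2

end

end Pool.Agent.Lib.MPb6f35e.D1
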