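import Pool.Agent.Lib.MP_b6f35e_al.D1.Rst

/-!
# The colimit of the `K_1(R[H])`: comparison of the two descriptions
-/

set_option autoImplicit false

noncomputable section

namespace Pool.Agent.Lib.MPb6f35e.D1

open Pool.Agent.Lib.MPb6f35e.WH Pool.Agent.Lib.MPb6f35e.W2

universe u v w

/-! ### `K_1` -/

section

variable (A : Type u) [Ring A]

lemma block_eq {A : Type u} [Ring A] {m n : ℕ} (a : Matrix (Fin m) (Fin m) A)
    (x : Matrix (Fin m) (Fin n) A) (b : Matrix (Fin n) (Fin n) A) :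
    block a x b = Matrix.reindex finSumFinEquiv finSumFinEquiv (Matrix.fromBlocks a x 0 b) := rfl

/-- `K_1` (new) → `K_1` (old). -/
def kOld : Grp (RelA A) →+ K1 A :=
  lift (fun a => K1.cls a.2) (by
    rintro x (⟨n, a, b⟩ | ⟨m, n, a, b, x, c, h⟩)
    · simp only [map_sub, FreeAbelianGroup.lift_apply_of, K1.cls_mul]
      abel
    · simp only [map_sub, FreeAbelianGroup.lift_apply_of]
      rw [K1.cls_block a b c x h]
      abel)

lemma kOld_cls (a : GenA A) : kOld A (cls _ a) = K1.cls a.2 := by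
  rw [kOld, lift_cls]

lemma clsA_mul {n : ℕ} (a b : (Matrix (Fin n) (Fin n) A)ˣ) :
    cls (RelA A) ⟨n, a * b⟩ = cls (RelA A) ⟨n, a⟩ + cls (RelA A) ⟨n, b⟩ := by
  have h : cls (RelA A) ⟨n, a * b⟩ - cls (RelA A) ⟨n, a⟩ - cls (RelA A) ⟨n, b⟩ = 0 :=
    grp_rel (RelA.mul n a b)
  rw [sub_sub, sub_eq_zero] at h
  exact h

lemma clsA_block {m n : ℕ} (a : (Matrix (Fin m) (Fin m) A)ˣ) (b : (Matrix (Fin n) (Fin n) A)ˣ)
    (x : Matrix (Fin m) (Fin n) A) (c : (Matrix (Fin (m + n)) (Fin (m + n)) A)ˣ)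
    (hc : c.val = block a.val x b.val) :
    cls (RelA A) ⟨m + n, c⟩ = cls (RelA A) ⟨m, a⟩ + cls (RelA A) ⟨n, b⟩ := by
  have h : cls (RelA A) ⟨m + n, c⟩ - cls (RelA A) ⟨m, a⟩ - cls (RelA A) ⟨n, b⟩ = 0 :=
    grp_rel (RelA.block m n a b x c hc)
  rw [sub_sub, sub_eq_zero] at h
  exact h

/-- `K_1` (old) → `K_1` (new). -/
def kNew : K1 A →+ Grp (RelA A) :=
  K1.lift (fun n a => cls _ ⟨n, a⟩) (by
    rintro x (⟨n, a, b⟩ | ⟨m, n, a, b, c, x, h⟩)
    · simp only [map_sub, FreeAbelianGroup.lift_apply_of, clsA_mul]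
      abel
    · simp only [map_sub, FreeAbelianGroup.lift_apply_of]
      rw [clsA_block A a b x c h]
      abel)

lemma kNew_cls {n : ℕ} (a : (Matrix (Fin n) (Fin n) A)ˣ) : kNew A (K1.cls a) = cls _ ⟨n, a⟩ := by
  rw [kNew, K1.lift_cls]

end

section

variable {R : Type u} [CommRing R] {G : Type v} [Group G]

lemma ofSub_conj (H K : FinSub G) (g : G) (h : ∀ x ∈ H.1, g * x * g⁻¹ ∈ K.1)
    (a : K1 (MonoidAlgebra R H.1)) :
    ColimK1.ofSub K (K1.map (MonoidAlgebra.mapDomainRingHom R (conjHom g H.1 K.1 h)) a) =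
      ColimK1.ofSub H a := by
  classical
  rw [← sub_eq_zero]
  exact (QuotientAddGroup.eq_zero_iff _).2 (AddSubgroup.subset_closure ⟨H, K, g, h, a, rfl⟩)

/-- The generator `(H, a)` in the colimit. -/
def oldK (s : GenK R G) : ColimK1 R G :=
  ColimK1.ofSub ⟨s.H, s.fin⟩ (K1.cls (rstU ⟨s.H, s.fin⟩ s.a s.ov s.ov'))

lemma oldK_eq (H : FinSub G) {n : ℕ} (a : (Mat R G n n)ˣ) (ha : Over H.1 a.val)
    (ha' : Over H.1 a.inv) (u : (Matrix (Fin n) (Fin n) (MonoidAlgebra R H.1))ˣ)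
    (hu : a = mapU H u) :
    oldK (⟨H.1, H.2, n, a, ha, ha'⟩ : GenK R G) = ColimK1.ofSub H (K1.cls u) := by
  subst hu
  show ColimK1.ofSub H (K1.cls (rstU H _ _ _)) = _
  rw [rstU_mapU]

lemma oldK_rel (x : FreeAbelianGroup (GenK R G)) (hx : RelK R G x) :
    FreeAbelianGroup.lift oldK x = 0 := by
  rcases hx with ⟨H, hH, n, a, b, ha, ha', hb, hb', hc, hc'⟩ |
    ⟨H, hH, m, n, a, b, x, c, ha, ha', hb, hb', hc, hc', h⟩ |
    ⟨H, K, hH, hK, g, hg, n, a, b, ha, ha', hb, hb', h⟩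
  · simp only [map_sub, FreeAbelianGroup.lift_apply_of]
    rw [oldK_eq ⟨H, hH⟩ a ha ha' (rstU ⟨H, hH⟩ a ha ha') (mapU_rstU _ _ _ _).symm,
      oldK_eq ⟨H, hH⟩ b hb hb' (rstU ⟨H, hH⟩ b hb hb') (mapU_rstU _ _ _ _).symm,
      oldK_eq ⟨H, hH⟩ (a * b) hc hc' (rstU ⟨H, hH⟩ a ha ha' * rstU ⟨H, hH⟩ b hb hb')
        (by rw [mapU_mul, mapU_rstU, mapU_rstU]), K1.cls_mul, map_add]
    abel
  · simp only [map_sub, FreeAbelianGroup.lift_apply_of]
    rw [oldK_eq ⟨H, hH⟩ a ha ha' (rstU ⟨H, hH⟩ a ha ha') (mapU_rstU _ _ _ _).symm,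
      oldK_eq ⟨H, hH⟩ b hb hb' (rstU ⟨H, hH⟩ b hb hb') (mapU_rstU _ _ _ _).symm,
      oldK_eq ⟨H, hH⟩ c hc hc' (rstU ⟨H, hH⟩ c hc hc') (mapU_rstU _ _ _ _).symm,
      K1.cls_block (rstU ⟨H, hH⟩ a ha ha') (rstU ⟨H, hH⟩ b hb hb') (rstU ⟨H, hH⟩ c hc hc')
        (rst ⟨H, hH⟩ x) ?_, map_add]
    · abel
    · rw [← block_eq]
      apply map_inj ⟨H, hH⟩
      have hx : Over H x := over_block H (h ▸ hc)
      rw [block_map, rst_map ⟨H, hH⟩ hx]
      show (rst ⟨H, hH⟩ c.val).map _ = block ((rst ⟨H, hH⟩ a.val).map _) x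
        ((rst ⟨H, hH⟩ b.val).map _)
      rw [rst_map ⟨H, hH⟩ ha, rst_map ⟨H, hH⟩ hb, rst_map ⟨H, hH⟩ hc, h]
  · simp only [map_sub, FreeAbelianGroup.lift_apply_of]
    rw [oldK_eq ⟨H, hH⟩ a ha ha' (rstU ⟨H, hH⟩ a ha ha') (mapU_rstU _ _ _ _).symm,
      ← ofSub_conj ⟨H, hH⟩ ⟨K, hK⟩ g hg, K1.map_cls,
      oldK_eq ⟨K, hK⟩ b hb hb' _ ?_, sub_self]
    apply Units.ext
    apply conj_unique h
    have h1 := conj_map ⟨H, hH⟩ ⟨K, hK⟩ g hg (rst ⟨H, hH⟩ a.val)
    rw [rst_map ⟨H, hH⟩ ha] at h1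
    exact h1

/-- The colimit (new) → the colimit (old). -/
def psiK : ColimK R G →+ ColimK1 R G := lift oldK oldK_rel

/-- The generator `(H, u)`. -/
def genU (H : FinSub G) {n : ℕ} (u : (Matrix (Fin n) (Fin n) (MonoidAlgebra R H.1))ˣ) :
    GenK R G :=
  ⟨H.1, H.2, n, mapU H u, over_mapU H u, over_mapU' H u⟩

lemma genU_mul (H : FinSub G) {n : ℕ} (u v : (Matrix (Fin n) (Fin n) (MonoidAlgebra R H.1))ˣ) :
    genU H (u * v) = ⟨H.1, H.2, n, mapU H u * mapU H v, mapU_mul H u v ▸ over_mapU H (u * v),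
      mapU_mul H u v ▸ over_mapU' H (u * v)⟩ := by
  simp only [genU, mapU_mul]

lemma genU_rstU (s : GenK R G) : genU ⟨s.H, s.fin⟩ (rstU ⟨s.H, s.fin⟩ s.a s.ov s.ov') = s := by
  obtain ⟨H, fin, n, a, ov, ov'⟩ := s
  simp only [genU, mapU_rstU]

lemma clsK_mul (H : FinSub G) {n : ℕ} (u v : (Matrix (Fin n) (Fin n) (MonoidAlgebra R H.1))ˣ) :
    cls (RelK R G) (genU H (u * v)) = cls (RelK R G) (genU H u) + cls (RelK R G) (genU H v) := by
  have h : cls (RelK R G) (genU H (u * v)) - cls (RelK R G) (genU H u) -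
      cls (RelK R G) (genU H v) = 0 :=
    by
    rw [genU_mul]
    exact grp_rel (RelK.mul H.1 H.2 n (mapU H u) (mapU H v) (over_mapU H u) (over_mapU' H u)
      (over_mapU H v) (over_mapU' H v) (mapU_mul H u v ▸ over_mapU H (u * v))
      (mapU_mul H u v ▸ over_mapU' H (u * v)))
  rw [sub_sub, sub_eq_zero] at h
  exact h

lemma clsK_block (H : FinSub G) {m n : ℕ} (u : (Matrix (Fin m) (Fin m) (MonoidAlgebra R H.1))ˣ)
    (v : (Matrix (Fin n) (Fin n) (MonoidAlgebra R H.1))ˣ)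
    (w : (Matrix (Fin (m + n)) (Fin (m + n)) (MonoidAlgebra R H.1))ˣ)
    (x : Matrix (Fin m) (Fin n) (MonoidAlgebra R H.1))
    (h : w.val = block u.val x v.val) :
    cls (RelK R G) (genU H w) = cls (RelK R G) (genU H u) + cls (RelK R G) (genU H v) := by
  have h2 : cls (RelK R G) (genU H w) - cls (RelK R G) (genU H u) - cls (RelK R G) (genU H v) = 0 :=
    grp_rel (RelK.block H.1 H.2 m n (mapU H u) (mapU H v) (x.map (toG H)) (mapU H w)
      (over_mapU H u) (over_mapU' H u) (over_mapU H v) (over_mapU' H v) (over_mapU H w)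
      (over_mapU' H w) (by rw [mapU_val, mapU_val, mapU_val, h, block_map]))
  rw [sub_sub, sub_eq_zero] at h2
  exact h2

/-- `K_1(R[H])` → the colimit (new). -/
def newK (H : FinSub G) : K1 (MonoidAlgebra R H.1) →+ ColimK R G :=
  K1.lift (fun n u => cls (RelK R G) (genU H u)) (by
    rintro x (⟨n, u, v⟩ | ⟨m, n, u, v, w, x, h⟩)
    · simp only [map_sub, FreeAbelianGroup.lift_apply_of]
      rw [clsK_mul]
      abel
    · simp only [map_sub, FreeAbelianGroup.lift_apply_of]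
      rw [clsK_block H u v w x h]
      abel)

lemma newK_cls (H : FinSub G) {n : ℕ} (u : (Matrix (Fin n) (Fin n) (MonoidAlgebra R H.1))ˣ) :
    newK H (K1.cls u) = cls (RelK R G) (genU H u) := by
  rw [newK, K1.lift_cls]

lemma newK_conj (H K : FinSub G) (g : G) (h : ∀ x ∈ H.1, g * x * g⁻¹ ∈ K.1)
    (a : K1 (MonoidAlgebra R H.1)) :
    newK K (K1.map (MonoidAlgebra.mapDomainRingHom R (conjHom g H.1 K.1 h)) a) = newK H a := by
  rw [← AddMonoidHom.comp_apply]
  congr 1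
  apply K1.ext
  intro n u
  rw [AddMonoidHom.comp_apply, K1.map_cls, newK_cls, newK_cls, ← sub_eq_zero]
  exact grp_rel (RelK.conj H.1 K.1 H.2 K.2 g h n (mapU H u) (mapU K _) (over_mapU H u)
    (over_mapU' H u) (over_mapU K _) (over_mapU' K _) (conj_map H K g h u.val))

open Classical in
/-- The colimit (old) → the colimit (new). -/
def phiK : ColimK1 R G →+ ColimK R G :=
  QuotientAddGroup.lift (AddSubgroup.closure (ColimRel R G))
    (DirectSum.toAddMonoid fun H : FinSub G => newK H) (by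
      intro x hx
      have : AddSubgroup.closure (ColimRel R G) ≤
          (DirectSum.toAddMonoid fun H : FinSub G => newK (R := R) H).ker := by
        rw [AddSubgroup.closure_le]
        rintro y ⟨H, K, g, h, a, rfl⟩
        show DirectSum.toAddMonoid (fun H : FinSub G => newK (R := R) H) _ = 0
        rw [map_sub, DirectSum.toAddMonoid_of, DirectSum.toAddMonoid_of, newK_conj, sub_self]
      exact this hx)

lemma phiK_ofSub (H : FinSub G) (a : K1 (MonoidAlgebra R H.1)) :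
    phiK (ColimK1.ofSub H a) = newK H a := by
  classical
  show DirectSum.toAddMonoid (fun H : FinSub G => newK (R := R) H)
    (DirectSum.of (fun H : FinSub G => K1 (MonoidAlgebra R H.1)) H a) = _
  rw [DirectSum.toAddMonoid_of]

lemma phiK_psiK (x : ColimK R G) : phiK (psiK x) = x := by
  have h : (phiK.comp psiK : ColimK R G →+ ColimK R G) = AddMonoidHom.id _ := by
    apply grp_ext
    intro s
    rw [AddMonoidHom.comp_apply, AddMonoidHom.id_apply, psiK, lift_cls, oldK, phiK_ofSub, newK_cls,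
      genU_rstU]
  exact DFunLike.congr_fun h x

lemma assembly_ofSub (H : FinSub G) (a : K1 (MonoidAlgebra R H.1)) :
    assembly R G (ColimK1.ofSub H a) = K1.map (toG H) a := by
  classical
  show DirectSum.toAddMonoid _
    (DirectSum.of (fun H : FinSub G => K1 (MonoidAlgebra R H.1)) H a) = _
  rw [DirectSum.toAddMonoid_of]
  rfl

lemma assembly_oldK (s : GenK R G) :
    assembly R G (oldK s) = K1.cls s.a := by
  rw [oldK, assembly_ofSub, K1.map_cls]
  congr 1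
  exact mapU_rstU ⟨s.H, s.fin⟩ s.a s.ov s.ov'

lemma proj_mapK (x : FreeAbelianGroup (GenK R G)) :
    proj (RelA (MonoidAlgebra R G)) (FreeAbelianGroup.map mapK x) =
      kNew (MonoidAlgebra R G) (assembly R G (FreeAbelianGroup.lift oldK x)) := by
  have h1 : (proj (RelA (MonoidAlgebra R G))).comp (FreeAbelianGroup.map mapK) =
      (kNew (MonoidAlgebra R G)).comp ((assembly R G).comp (FreeAbelianGroup.lift oldK)) := by
    apply FreeAbelianGroup.lift_ext
    intro s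
    rw [AddMonoidHom.comp_apply, AddMonoidHom.comp_apply, AddMonoidHom.comp_apply,
      FreeAbelianGroup.lift_apply_of, FreeAbelianGroup.map_of_apply, assembly_oldK, kNew_cls]
    rfl
  exact DFunLike.congr_fun h1 x

/-- The map on generators respects the relations. -/
lemma mapK_rel_aux (x : FreeAbelianGroup (GenK R G)) (h : RelK R G x) :
    FreeAbelianGroup.map mapK x ∈ AddSubgroup.closure {y | RelA (MonoidAlgebra R G) y} := by
  rw [proj_mem, proj_mapK, oldK_rel x h, map_zero, map_zero]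

end

end Pool.Agent.Lib.MPb6f35e.D1
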