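import Pool.Agent.Lib.MP_b6f35e_al.D1.TK

/-!
# The tensor product of `Z_G(H)_ab` and `K_0(R[H])`: comparison of the two descriptions
-/

set_option autoImplicit false

noncomputable section

namespace Pool.Agent.Lib.MPb6f35e.D1

open Pool.Agent.Lib.MPb6f35e.WH Pool.Agent.Lib.MPb6f35e.W2

universe u v w

variable {R : Type u} [CommRing R] {G : Type v} [Group G]

lemma rst_idem (H : FinSub G) {n : ℕ} {e : Mat R G n n} (h : Over H.1 e) (he : e * e = e) :
    rst H e * rst H e = rst H e := by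
  apply map_inj H
  rw [Matrix.map_mul, rst_map H h, he]

lemma genS_ext {H : Subgroup G} {fin : Finite H} {z : G} {comm : ∀ h ∈ H, z * h = h * z} {n : ℕ}
    {e e' : Mat R G n n} {ov : Over H e} {ov' : Over H e'} {idem : e * e = e}
    {idem' : e' * e' = e'} (h : e = e') :
    (⟨H, fin, z, comm, n, e, ov, idem⟩ : GenS R G) = ⟨H, fin, z, comm, n, e', ov', idem'⟩ := by
  subst h
  rfl

lemma gen_ext {H : FinSub G} {z : G} {comm : ∀ h ∈ H.1, z * h = h * z} {n : ℕ}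
    {e e' : Matrix (Fin n) (Fin n) (MonoidAlgebra R H.1)} {idem : e * e = e}
    {idem' : e' * e' = e'} (h : e = e') :
    (⟨H, z, comm, n, e, idem⟩ : Gen R G) = ⟨H, z, comm, n, e', idem'⟩ := by
  subst h
  rfl

/-- The generator `(H, z, e)` (old). -/
def oldG (s : GenS R G) : Gen R G :=
  ⟨⟨s.H, s.fin⟩, s.z, s.comm, s.n, rst ⟨s.H, s.fin⟩ s.e, rst_idem ⟨s.H, s.fin⟩ s.ov s.idem⟩

/-- The generator `(H, z, e)` (new). -/
def newG (s : Gen R G) : GenS R G :=
  ⟨s.H.1, s.H.2, s.z, s.comm, s.n, s.e.map (toG s.H), over_map s.H s.e, idem_map _ s.idem⟩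

lemma newG_oldG (s : GenS R G) : newG (oldG s) = s := by
  obtain ⟨H, fin, z, comm, n, e, ov, idem⟩ := s
  exact genS_ext (rst_map ⟨H, fin⟩ ov)

lemma oldG_newG (s : Gen R G) : oldG (newG s) = s := by
  obtain ⟨⟨H, fin⟩, z, comm, n, e, idem⟩ := s
  exact gen_ext (rst_of_map ⟨H, fin⟩ e)

lemma oldG_eq {s : GenS R G} {t : Gen R G} (h : newG t = s) : oldG s = t := by
  rw [← h, oldG_newG]

lemma oldG_rel (x : FreeAbelianGroup (GenS R G)) (hx : RelS R G x) :
    FreeAbelianGroup.lift (fun s => S2.cls (oldG s)) x = 0 := by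
  rcases hx with ⟨H, hH, z, z', hz, hz', hzz, n, e, he, hee⟩ |
    ⟨H, hH, z, hz, m, n, a, b, ha, hb, hab, hba, h, h'⟩ |
    ⟨H, hH, z, hz, m, n, e, f, he, hf, hee, hff, d, hd, hdd, h⟩ |
    ⟨H, K, hH, hK, g, hg, z, hz, hz', n, e, f, he, hf, hee, hff, h⟩
  · simp only [map_sub, FreeAbelianGroup.lift_apply_of]
    exact S2.rel (Rel.mul ⟨H, hH⟩ z z' hz hz' n (rst ⟨H, hH⟩ e) (rst_idem ⟨H, hH⟩ he hee))
  · simp only [map_sub, FreeAbelianGroup.lift_apply_of]
    have h1 : (rst ⟨H, hH⟩ a * rst ⟨H, hH⟩ b).map (toG ⟨H, hH⟩) = a * b := by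
      rw [Matrix.map_mul, rst_map ⟨H, hH⟩ ha, rst_map ⟨H, hH⟩ hb]
    have h2 : (rst ⟨H, hH⟩ b * rst ⟨H, hH⟩ a).map (toG ⟨H, hH⟩) = b * a := by
      rw [Matrix.map_mul, rst_map ⟨H, hH⟩ ha, rst_map ⟨H, hH⟩ hb]
    have h3 : rst ⟨H, hH⟩ a * rst ⟨H, hH⟩ b * (rst ⟨H, hH⟩ a * rst ⟨H, hH⟩ b) =
        rst ⟨H, hH⟩ a * rst ⟨H, hH⟩ b := by
      apply map_inj ⟨H, hH⟩
      rw [Matrix.map_mul, h1, h]
    have h4 : rst ⟨H, hH⟩ b * rst ⟨H, hH⟩ a * (rst ⟨H, hH⟩ b * rst ⟨H, hH⟩ a) =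
        rst ⟨H, hH⟩ b * rst ⟨H, hH⟩ a := by
      apply map_inj ⟨H, hH⟩
      rw [Matrix.map_mul, h2, h']
    rw [oldG_eq (t := ⟨⟨H, hH⟩, z, hz, m, _, h3⟩) (genS_ext h1),
      oldG_eq (t := ⟨⟨H, hH⟩, z, hz, n, _, h4⟩) (genS_ext h2)]
    exact S2.rel (Rel.equiv ⟨H, hH⟩ z hz m n (rst ⟨H, hH⟩ a) (rst ⟨H, hH⟩ b) h3 h4)
  · simp only [map_sub, FreeAbelianGroup.lift_apply_of]
    refine S2.rel (Rel.block ⟨H, hH⟩ z hz m n (rst ⟨H, hH⟩ e) (rst ⟨H, hH⟩ f)
      (rst_idem ⟨H, hH⟩ he hee) (rst_idem ⟨H, hH⟩ hf hff) (rst ⟨H, hH⟩ d)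
      (rst_idem ⟨H, hH⟩ hd hdd) ?_)
    rw [← block_eq]
    apply map_inj ⟨H, hH⟩
    rw [block_map, rst_map ⟨H, hH⟩ he, rst_map ⟨H, hH⟩ hf, rst_map ⟨H, hH⟩ hd, h,
      Matrix.map_zero _ (map_zero _)]
  · simp only [map_sub, FreeAbelianGroup.lift_apply_of]
    have h1 : ((rst ⟨H, hH⟩ e).map (MonoidAlgebra.mapDomainRingHom R
        (conjHom g H K hg))).map (toG ⟨K, hK⟩) = f := by
      have h2 := conj_map ⟨H, hH⟩ ⟨K, hK⟩ g hg (rst ⟨H, hH⟩ e)
      rw [rst_map ⟨H, hH⟩ he] at h2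
      exact conj_unique h2 h
    have h3 := rst_idem ⟨H, hH⟩ he hee
    rw [oldG_eq (s := ⟨K, hK, z, hz, n, f, hf, hff⟩)
      (t := ⟨⟨K, hK⟩, z, hz, n, _, idem_map _ h3⟩) (genS_ext h1)]
    exact S2.rel (Rel.conj ⟨H, hH⟩ ⟨K, hK⟩ g hg z hz n (rst ⟨H, hH⟩ e) h3)

/-- The tensor product (new) → the tensor product (old). -/
def psiS : TensorK R G →+ S2 R G := lift (fun s => S2.cls (oldG s)) oldG_rel

lemma newG_rel (x : FreeAbelianGroup (Gen R G)) (hx : Rel R G x) :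
    FreeAbelianGroup.lift (fun s => cls (RelS R G) (newG s)) x = 0 := by
  rcases hx with ⟨H, z, z', hz, hz', n, e, he⟩ | ⟨H, z, hz, m, n, a, b, he, hf⟩ |
      ⟨H, z, hz, m, n, e, f, he, hf, d, hd, h⟩ | ⟨H, K, g, h, z, hz, n, e, he⟩
  · simp only [map_sub, FreeAbelianGroup.lift_apply_of]
    exact grp_rel (RelS.mul H.1 H.2 z z' hz hz' (comm_mul hz hz') n (e.map (toG H)) (over_map H e)
      (idem_map _ he))
  · simp only [map_sub, FreeAbelianGroup.lift_apply_of]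
    have h1 := Matrix.map_mul (f := toG H) (L := a) (M := b)
    have h2 := Matrix.map_mul (f := toG H) (L := b) (M := a)
    have h3 := idem_map (toG H) he
    have h4 := idem_map (toG H) hf
    have h5 := over_map H (a * b)
    have h6 := over_map H (b * a)
    have e1 : newG (⟨H, z, hz, m, a * b, he⟩ : Gen R G) =
        ⟨H.1, H.2, z, hz, m, a.map (toG H) * b.map (toG H), h1 ▸ h5, h1 ▸ h3⟩ := by
      simp only [newG, h1]
    have e2 : newG (⟨H, z, hz, n, b * a, hf⟩ : Gen R G) =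
        ⟨H.1, H.2, z, hz, n, b.map (toG H) * a.map (toG H), h2 ▸ h6, h2 ▸ h4⟩ := by
      simp only [newG, h2]
    rw [e1, e2]
    exact grp_rel (RelS.equiv H.1 H.2 z hz m n (a.map (toG H)) (b.map (toG H)) (over_map H a)
      (over_map H b) _ _ _ _)
  · simp only [map_sub, FreeAbelianGroup.lift_apply_of]
    refine grp_rel (RelS.block H.1 H.2 z hz m n (e.map (toG H)) (f.map (toG H)) (over_map H e)
      (over_map H f) (idem_map _ he) (idem_map _ hf) (d.map (toG H)) (over_map H d)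
      (idem_map _ hd) ?_)
    rw [h, ← block_eq, block_map, Matrix.map_zero _ (map_zero _)]
  · simp only [map_sub, FreeAbelianGroup.lift_apply_of]
    exact grp_rel (RelS.conj H.1 K.1 H.2 K.2 g h z hz (comm_conj h hz) n (e.map (toG H)) _
      (over_map H e) (over_map K _) (idem_map _ he) (idem_map _ (idem_map _ he))
      (conj_map H K g h e))

/-- The tensor product (old) → the tensor product (new). -/
def phiS : S2 R G →+ TensorK R G := S2.lift (fun s => cls (RelS R G) (newG s)) newG_rel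

lemma phiS_psiS (x : TensorK R G) : phiS (psiS x) = x := by
  have h : (phiS.comp psiS : TensorK R G →+ TensorK R G) = AddMonoidHom.id _ := by
    apply grp_ext
    intro s
    rw [AddMonoidHom.comp_apply, AddMonoidHom.id_apply, psiS, lift_cls, phiS, S2.lift_cls,
      newG_oldG]
  exact DFunLike.congr_fun h x

lemma mapS_snd (s : GenS R G) : (mapS s).2 = genUnit (oldG s) := by
  apply Units.ext
  rw [genUnit_val]
  show zmat s.z s.e = 1 + ((gUnit R s.z : MonoidAlgebra R G) - 1) •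
    (rst ⟨s.H, s.fin⟩ s.e).map (toG ⟨s.H, s.fin⟩)
  rw [rst_map ⟨s.H, s.fin⟩ s.ov, gUnit_val, sub_smul, one_smul, zmat]
  abel

lemma asm2_cls (s : Gen R G) : asm2 R G (S2.cls s) = K1.cls (genUnit s) := by
  rw [asm2, S2.lift_cls]

lemma proj_mapS (x : FreeAbelianGroup (GenS R G)) :
    proj (RelA (MonoidAlgebra R G)) (FreeAbelianGroup.map mapS x) =
      kNew (MonoidAlgebra R G) (asm2 R G (FreeAbelianGroup.lift (fun s => S2.cls (oldG s)) x)) := by
  have h1 : (proj (RelA (MonoidAlgebra R G))).comp (FreeAbelianGroup.map mapS) =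
      (kNew (MonoidAlgebra R G)).comp ((asm2 R G).comp
        (FreeAbelianGroup.lift (fun s => S2.cls (oldG s)))) := by
    apply FreeAbelianGroup.lift_ext
    intro s
    rw [AddMonoidHom.comp_apply, AddMonoidHom.comp_apply, AddMonoidHom.comp_apply,
      FreeAbelianGroup.lift_apply_of, FreeAbelianGroup.map_of_apply, asm2_cls, kNew_cls,
      ← mapS_snd]
    rfl
  exact DFunLike.congr_fun h1 x

/-- The map on generators respects the relations. -/
lemma mapS_rel_aux (x : FreeAbelianGroup (GenS R G)) (h : RelS R G x) :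
    FreeAbelianGroup.map mapS x ∈ AddSubgroup.closure {y | RelA (MonoidAlgebra R G) y} := by
  rw [proj_mem, proj_mapS, oldG_rel x h, map_zero, map_zero]

lemma mapG_snd (g : G) : (mapG R g).2 = oneByOne (gUnit R g) := by
  apply Units.ext
  rfl

end Pool.Agent.Lib.MPb6f35e.D1
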